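import Pool.Agent.H11.LGR.Targets

/-!
# DOM: bounded exponent, torsion free modules over domains
-/

set_option autoImplicit false

open MvPolynomial Pool.Agent.H87.CLG Pool.Agent.H11.LGR

namespace Pool.Agent.H12.LGR

/-- the case of a torsion free module over a domain -/
lemma dom_aux {n e : ℕ} {ν : ℕ → ℕ}
    (he : ∀ (F W Γ : Type) [Field F] [AddCommGroup W] [Module F W] [Group Γ] (X : Set Γ)
      (ρ : Γ →* Module.End F W) (g : Fin n → W), Submodule.span F (Set.range g) = ⊤ → GX X →
      LX ν X ρ → ∀ γ, ρ (γ ^ e) = 1)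
    (A Q Γ : Type) [CommRing A] [IsDomain A] [AddCommGroup Q] [Module A Q] [Group Γ] (X : Set Γ)
    (ρ : Γ →* Module.End A Q) (g : Fin n → Q) (hg : Submodule.span A (Set.range g) = ⊤)
    (htf : ∀ (r : A) (q : Q), r • q = 0 → r = 0 ∨ q = 0) (hX : GX X) (hL : LX ν X ρ) (γ : Γ) :
    ρ (γ ^ e) = 1 := by
  let M : Submonoid A := nonZeroDivisors A
  let L : Module.End A Q →* Module.End (FractionRing A) (LocalizedModule M Q) :=
    { toFun := fun f => LocalizedModule.map M f
      map_one' := LocalizedModule.map_id M
      map_mul' := fun f f' => by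
        refine LinearMap.ext fun x => ?_
        induction x using LocalizedModule.induction_on with
        | _ m s =>
          rw [Module.End.mul_apply, LocalizedModule.map_mk, LocalizedModule.map_mk,
            LocalizedModule.map_mk]
          rfl }
  have hLX : LX ν X (L.comp ρ) := by
    intro l hl
    rw [MonoidHom.comp_apply, ← map_pow, hL l hl, map_one]
  have hspan : Submodule.span (FractionRing A)
      (Set.range fun i => LocalizedModule.mkLinearMap M Q (g i)) = ⊤ := by
    have := span_eq_top_of_isLocalizedModule (FractionRing A) M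
      (LocalizedModule.mkLinearMap M Q) hg
    rwa [← Set.range_comp] at this
  have h1 := he (FractionRing A) (LocalizedModule M Q) Γ X (L.comp ρ)
    (fun i => LocalizedModule.mkLinearMap M Q (g i)) hspan hX hLX γ
  refine LinearMap.ext fun q => ?_
  have h2 : (L.comp ρ) (γ ^ e) (LocalizedModule.mk q 1) = LocalizedModule.mk q 1 := by
    rw [h1]; rfl
  have h3 : LocalizedModule.mk (ρ (γ ^ e) q) (1 : M) = LocalizedModule.mk q 1 := by
    rw [← h2]
    exact (LocalizedModule.map_mk M _ _ _).symm
  obtain ⟨u, hu⟩ := LocalizedModule.mk_eq.1 h3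
  have h4 : (u : A) • (ρ (γ ^ e) q - q) = 0 := by
    have h5 : (u : A) • ρ (γ ^ e) q = (u : A) • q := by simpa [Submonoid.smul_def] using hu
    rw [smul_sub, h5, sub_self]
  rcases htf _ _ h4 with h | h
  · exact absurd h (nonZeroDivisors.coe_ne_zero u)
  · exact sub_eq_zero.1 h

theorem pf_DOM (hFLD : T_FLD) : T_DOM := by
  intro n ν hν
  obtain ⟨e, he0, he⟩ := hFLD n ν hν
  refine ⟨e, he0, ?_⟩
  intro R Q Γ _ _ _ _ P X ρ g hP hg hPQ htf hX hL γ
  have htor : Module.IsTorsionBySet R Q P := fun q r => hPQ r r.2 q
  let _ : Module (R ⧸ P) Q := htor.module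
  have hsm : ∀ (r : R) (q : Q), (Ideal.Quotient.mk P r) • q = r • q := fun r q =>
    Module.IsTorsionBySet.mk_smul htor r q
  have _ : IsDomain (R ⧸ P) := (Ideal.Quotient.isDomain_iff_prime P).2 hP
  let E : Module.End R Q →* Module.End (R ⧸ P) Q :=
    { toFun := fun f =>
        { toFun := f
          map_add' := f.map_add
          map_smul' := by
            intro r q
            obtain ⟨r, rfl⟩ := Ideal.Quotient.mk_surjective r
            rw [hsm, f.map_smul, RingHom.id_apply, hsm] }
      map_one' := rfl
      map_mul' := fun _ _ => rfl }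
  have hE : ∀ (f : Module.End R Q) (q : Q), E f q = f q := fun _ _ => rfl
  have hspan : Submodule.span (R ⧸ P) (Set.range g) = ⊤ := by
    refine top_unique fun q _ => ?_
    have hq : q ∈ Submodule.span R (Set.range g) := by rw [hg]; trivial
    induction hq using Submodule.span_induction with
    | mem x hx => exact Submodule.subset_span hx
    | zero => exact Submodule.zero_mem _
    | add x y _ _ hx hy => exact Submodule.add_mem _ (hx trivial) (hy trivial)
    | smul a x _ hx =>
      rw [← hsm]
      exact Submodule.smul_mem _ _ (hx trivial)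
  have hLX : LX ν X (E.comp ρ) := by
    intro l hl
    rw [MonoidHom.comp_apply, ← map_pow, hL l hl, map_one]
  have h1 := dom_aux he (R ⧸ P) Q Γ X (E.comp ρ) g hspan (fun r q h => by
    obtain ⟨r, rfl⟩ := Ideal.Quotient.mk_surjective r
    rw [hsm] at h
    rcases htf r q h with h | h
    · exact Or.inl (Ideal.Quotient.eq_zero_iff_mem.2 h)
    · exact Or.inr h) hX hLX γ
  refine LinearMap.ext fun q => ?_
  have h2 := LinearMap.congr_fun h1 q
  exact h2

end Pool.Agent.H12.LGR
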